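import Mathlib
import Pool.Agent.J4H16.AS.Defs2

/-!
# Project AS: compactness, almost every circle, integrability (AEC, INTN), non-extension (NF)
-/

set_option autoImplicit false
open Set Filter Topology Metric Complex MeasureTheory
open scoped ComplexConjugate

namespace Pool.Agent.J4H71.AS

open Pool.Agent.J4H16 Pool.Agent.J4H16.AS Pool.Agent.W746.LD

/-- A compact set which avoids the limit set is free at most scales. -/
theorem free_compact {n : ℕ} {c : ℂ} {U : Ultrafilter ℕ} {σ : ℕ → ℝ} (hp : ∀ j, 0 < σ j)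
    {E : Set ℂ} (hE : IsCompact E) (hd : ∀ Z ∈ E, Z ∉ Lim U σ (PC n c)) :
    ∀ᶠ j in (U : Filter ℕ), ∀ p ∈ PC n c, ∀ z ∈ E, p ≠ σ j * z := by
  have h1 : ∀ Z ∈ E, ∃ d : ℝ, 0 < d ∧ Free n c U σ Z d := fun Z hZ => not_mem_Lim.mp (hd Z hZ)
  choose! d hd0 hdF using h1
  obtain ⟨t, htE, ht⟩ := hE.elim_nhds_subcover (fun Z => ball Z (d Z))
    (fun Z hZ => ball_mem_nhds Z (hd0 Z hZ))
  have h2 : ∀ᶠ j in (U : Filter ℕ), ∀ Z ∈ t, ∀ p ∈ PC n c, σ j * d Z ≤ ‖p - σ j * Z‖ := by
    rw [Filter.eventually_all_finset]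
    intro Z hZ
    exact hdF Z (htE Z hZ)
  filter_upwards [h2] with j hj p hp' z hz he
  have h3 := ht hz
  simp only [mem_iUnion] at h3
  obtain ⟨Z, hZt, hzZ⟩ := h3
  have h4 := hj Z hZt p hp'
  rw [he, ← mul_sub, norm_mul, Complex.norm_real, Real.norm_of_nonneg (hp j).le] at h4
  have h5 := le_of_mul_le_mul_left h4 (hp j)
  rw [mem_ball, dist_eq_norm] at hzZ
  linarith

theorem t_AEC : S_AEC := by
  intro n c U σ hp hcl hnull a
  have h0 : volume ((fun z : ℂ => dist z a) '' Lim U σ (PC n c)) = 0 :=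
    hnull _ (LipschitzWith.dist_left a)
  have h1 : ∀ᵐ r : ℝ, r ∉ (fun z : ℂ => dist z a) '' Lim U σ (PC n c) :=
    measure_eq_zero_iff_ae_notMem.1 h0
  filter_upwards [h1] with r hr hr0
  have hs : sphere a r ⊆ (Lim U σ (PC n c))ᶜ := fun z hz hzL => hr ⟨z, hzL, mem_sphere.1 hz⟩
  obtain ⟨ε, hε, hsub⟩ := (isCompact_sphere a r).exists_cthickening_subset_open hcl.isOpen_compl hs
  obtain ⟨δ, hδ, hδ1, hδε⟩ : ∃ δ : ℝ, 0 < δ ∧ δ < 1 ∧ r * δ ≤ ε := by
    refine ⟨min (ε / r) (1 / 2), by positivity, (min_le_right _ _).trans_lt (by norm_num), ?_⟩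
    calc r * min (ε / r) (1 / 2) ≤ r * (ε / r) := by gcongr; exact min_le_left _ _
      _ = ε := by field_simp
  have hann : ∀ z : ℂ, r * (1 - δ) ≤ ‖z - a‖ → ‖z - a‖ ≤ r * (1 + δ) → z ∉ Lim U σ (PC n c) := by
    intro z h2 h3
    apply hsub
    have h4 : 0 < ‖z - a‖ := lt_of_lt_of_le (mul_pos hr0 (by linarith)) h2
    have h4' : ((‖z - a‖ : ℝ) : ℂ) ≠ 0 := by exact_mod_cast h4.ne'
    refine mem_cthickening_of_dist_le z (a + ((r / ‖z - a‖ : ℝ) : ℂ) * (z - a)) ε _ ?_ ?_
    · rw [mem_sphere, dist_eq_norm, add_sub_cancel_left, norm_mul, Complex.norm_real,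
        Real.norm_of_nonneg (by positivity), div_mul_cancel₀ _ h4.ne']
    · have e : z - (a + ((r / ‖z - a‖ : ℝ) : ℂ) * (z - a)) =
          (((‖z - a‖ - r) / ‖z - a‖ : ℝ) : ℂ) * (z - a) := by
        push_cast
        field_simp
        ring
      rw [dist_eq_norm, e, norm_mul, Complex.norm_real, Real.norm_eq_abs, abs_div,
        abs_of_pos h4, div_mul_cancel₀ _ h4.ne', abs_le]
      constructor <;> nlinarith
  refine ⟨δ, hδ, hδ1, ?_, hann⟩
  have hE : IsCompact {z : ℂ | r * (1 - δ) ≤ ‖z - a‖ ∧ ‖z - a‖ ≤ r * (1 + δ)} := by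
    refine (isCompact_closedBall a (r * (1 + δ))).of_isClosed_subset ?_ ?_
    · have hc : Continuous fun z : ℂ => ‖z - a‖ := (continuous_id.sub continuous_const).norm
      exact (isClosed_le continuous_const hc).inter (isClosed_le hc continuous_const)
    · intro z hz
      rw [mem_closedBall, dist_eq_norm]
      exact hz.2
  unfold FA
  filter_upwards [free_compact hp hE fun Z hZ => hann Z hZ.1 hZ.2] with j hj p hp' hc
  have hs := hp j
  have hsC : ((σ j : ℝ) : ℂ) ≠ 0 := by exact_mod_cast hs.ne'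
  refine hj p hp' (p / σ j) ?_ (by field_simp)
  have e : p / σ j - a = (p - σ j * a) / σ j := by field_simp
  have e2 : ‖p / σ j - a‖ = ‖p - σ j * a‖ / σ j := by
    rw [e, norm_div, Complex.norm_real, Real.norm_of_nonneg hs.le]
  rw [e2, le_div_iff₀ hs, div_le_iff₀ hs]
  constructor
  · nlinarith [hc.1]
  · nlinarith [hc.2]

theorem t_INTN : S_INTN := by
  intro n c U σ C0 N hp hC0 hcl hne hv hint hN hb R
  have key : ∀ Z ∉ Lim U σ (PC n c), ‖N Z‖ ≤ 2 * C0 * (infDist Z (Lim U σ (PC n c)))⁻¹ := by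
    intro Z hZ
    have hD : 0 < infDist Z (Lim U σ (PC n c)) := (hcl.notMem_iff_infDist_pos hne).1 hZ
    have hF : Free n c U σ Z (infDist Z (Lim U σ (PC n c)) / 2) := by
      have h1 := free_compact (n := n) (c := c) hp
        (isCompact_closedBall Z (infDist Z (Lim U σ (PC n c)) / 2)) (by
          intro W hW hWL
          have := infDist_le_dist_of_mem (x := Z) hWL
          rw [mem_closedBall, dist_comm] at hW
          linarith)
      unfold Free
      filter_upwards [h1] with j hj p hp'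
      have hs := hp j
      have hsC : ((σ j : ℝ) : ℂ) ≠ 0 := by exact_mod_cast hs.ne'
      by_contra hc
      push Not at hc
      refine hj p hp' (p / σ j) ?_ (by field_simp)
      have e : p / σ j - Z = (p - σ j * Z) / σ j := by field_simp
      rw [mem_closedBall, dist_eq_norm, e, norm_div, Complex.norm_real,
        Real.norm_of_nonneg hs.le, div_le_iff₀ hs]
      linarith
    have h2 := hb Z _ (half_pos hD) hF
    refine h2.trans (le_of_eq ?_)
    field_simp
  have hm : AEStronglyMeasurable N (volume.restrict (ball 0 R \ Lim U σ (PC n c))) :=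
    (hN.continuousOn.mono fun z hz => hz.2).aestronglyMeasurable
      (measurableSet_ball.diff hcl.measurableSet)
  have h3 : IntegrableOn N (ball 0 R \ Lim U σ (PC n c)) := by
    refine Integrable.mono' (((hint R).mono_set sdiff_subset).const_mul (2 * C0)) hm ?_
    rw [ae_restrict_iff' (measurableSet_ball.diff hcl.measurableSet)]
    exact Eventually.of_forall fun Z hZ => key Z hZ.2
  exact h3.congr_set_ae (sdiff_null_ae_eq_self hv).symm

theorem t_NF : S_NF := by
  intro n c s R m i hh a ρ δ y v hn hs hρ hδ him hhh haR horb hv hva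
  rintro ⟨G, hG1, hG2, hG3⟩
  have hs' : (s : ℂ) ≠ 0 := by exact_mod_cast hs.ne'
  have hsb : SB n c (G a) s m a (ρ * (1 + δ)) 0 G := ⟨hG1, hG2, by simp⟩
  have hb := hsb.br hs
  have hsh := hb.shift (i := m - i) (by omega)
  have e : m - (m - i) = i := by omega
  rw [e] at hsh
  have hsub : ball ((s : ℂ) * a) (s * (ρ * (1 + δ))) ⊆ ball (0 : ℂ) (s * R) := by
    apply ball_subset_ball'
    rw [dist_zero_right, norm_mul, Complex.norm_real, Real.norm_of_nonneg hs.le]
    nlinarith
  have hw0 : (s : ℂ) * (a + ρ) ∈ ball ((s : ℂ) * a) (s * (ρ * (1 + δ))) := by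
    rw [mem_ball, dist_eq_norm, ← mul_sub, add_sub_cancel_left, norm_mul, Complex.norm_real,
      Real.norm_of_nonneg hs.le, Complex.norm_real, Real.norm_of_nonneg hρ.le]
    exact mul_lt_mul_of_pos_left (by nlinarith) hs
  have huq := hsh.unique hn (hhh.mono hsub) hw0 (by
    show orb n c (G ((s : ℂ) * (a + ρ) / s)) (m - i) = hh (s * (a + ρ))
    rw [mul_div_cancel_left₀ _ hs', hG3]
    exact horb)
  have hvb : v ∈ ball ((s : ℂ) * a) (s * (ρ * (1 + δ))) := by
    rw [mem_ball, dist_eq_norm]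
    exact hva
  have h1 : orb n c (G (v / s)) (m - i) = hh v := huq v hvb
  rw [hv, show m - i = (m - i - 1) + 1 by omega, orb_succ] at h1
  have h3 : orb n c (G (v / s)) (m - i - 1) ^ n = 0 := by linear_combination h1
  exact hb.orb_ne_zero hn hvb (j := m - i - 1) (by omega) (pow_eq_zero_iff (by omega) |>.1 h3)

end Pool.Agent.J4H71.AS
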