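import Mathlib
import Pool.Agent.J4H16.AS.Defs2
import Pool.Agent.J4H73.AS.Lift

/-!
# Project AS: tracked branches (TRK)
-/

set_option autoImplicit false
open Set Filter Topology Metric Complex MeasureTheory
open scoped ComplexConjugate

namespace Pool.Agent.J4H71.AS

open Pool.Agent.J4H16 Pool.Agent.J4H16.AS Pool.Agent.W746.LD

/-- The factorization through `hh` propagates. -/
theorem fac {n : ℕ} {c x : ℂ} {s : ℝ} {m i : ℕ} {Z : ℂ} {d M R : ℝ} {G hh : ℂ → ℂ} (hn : 2 ≤ n)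
    (hs : 0 < s) (h : SB n c x s m Z d M G) (hhh : Br n c i 0 (s * R) hh) (him : i ≤ m) {e : ℝ}
    (he : e ≤ d) (heR : ‖Z‖ + e ≤ R) {W0 : ℂ} (hW0 : W0 ∈ ball Z e)
    (h0 : orb n c (G W0) (m - i) = hh (s * W0)) :
    ∀ W ∈ ball Z e, orb n c (G W) (m - i) = hh (s * W) := by
  have hs' : (s : ℂ) ≠ 0 := by exact_mod_cast hs.ne'
  have hb := (h.mono he le_rfl).br hs
  have hsh := hb.shift (i := m - i) (by omega)
  have e1 : m - (m - i) = i := by omega
  rw [e1] at hsh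
  have hsub : ball ((s : ℂ) * Z) (s * e) ⊆ ball (0 : ℂ) (s * R) := by
    apply ball_subset_ball'
    rw [dist_zero_right, norm_mul, Complex.norm_real, Real.norm_of_nonneg hs.le]
    nlinarith
  have hmem : ∀ W ∈ ball Z e, (s : ℂ) * W ∈ ball ((s : ℂ) * Z) (s * e) := by
    intro W hW
    rw [mem_ball, dist_eq_norm] at hW ⊢
    rw [← mul_sub, norm_mul, Complex.norm_real, Real.norm_of_nonneg hs.le]
    exact mul_lt_mul_of_pos_left hW hs
  have huq := hsh.unique hn (hhh.mono hsub) (hmem W0 hW0) (by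
    show orb n c (G ((s : ℂ) * W0 / s)) (m - i) = hh (s * W0)
    rw [mul_div_cancel_left₀ _ hs']
    exact h0)
  intro W hW
  have h1 : orb n c (G ((s : ℂ) * W / s)) (m - i) = hh (s * W) := huq _ (hmem W hW)
  rwa [mul_div_cancel_left₀ _ hs'] at h1

/-- Transport of a good sequence into a free ball, with the value at `W`. -/
theorem back' {n : ℕ} {c x : ℂ} {r : ℝ} {ν : ℂ → ℂ} {A : ℝ} {U : Ultrafilter ℕ} {σ : ℕ → ℝ}
    {C0 c0 : ℝ} (K : KC C0 c0) (LIFT : S_LIFT) (UNIQ : S_UNIQ)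
    (C : Cx n c x r ν A U σ) {Z W : ℂ} {d d' M : ℝ}
    {m : ℕ → ℕ} {G : ℕ → ℂ → ℂ} (h : GS n c x U σ W d' M m G) (hd : 0 < d) (hd' : 0 < d')
    (hM : 0 ≤ M) (hF : Free n c U σ Z d) (hW : ‖W - Z‖ ≤ d / 8) :
    ∃ G', GS n c x U σ Z (3 * d / 8) (C0 ^ 2 * (M + d)) m G' ∧
      ∀ᶠ j in (U : Filter ℕ), G' j W = G j W := by
  have hC0 := K.one_le
  have hn := C.h.hn
  have key : ∀ᶠ j in (U : Filter ℕ), ∃ g, SB n c x (σ j) (m j) Z (3 * d / 8)
      (C0 ^ 2 * (M + d)) g ∧ g W = G j W := by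
    filter_upwards [h, hF] with j hj hf
    have hs := C.pos j
    have hWZ : W ∈ ball Z d := by rw [mem_ball, dist_eq_norm]; linarith
    have hfree : ∀ w ∈ ball Z d, (σ j : ℂ) * w ∉ PC n c := by
      intro w hw hp
      have h1 := hf _ hp
      rw [← mul_sub, norm_mul, Complex.norm_real, Real.norm_of_nonneg hs.le] at h1
      have h2 := le_of_mul_le_mul_left h1 hs
      rw [mem_ball, dist_eq_norm] at hw
      linarith
    obtain ⟨g, hg1, hg2, hg3⟩ := LIFT n c (m j) (ball Z d) (fun w => σ j * w) W (G j W) hn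
      isOpen_ball (convex_ball _ _) hWZ (differentiableOn_id.const_mul _) hfree
      (hj.eq W (mem_ball_self hd'))
    set e : ℝ := min d' (d / 2) with he
    have he0 : 0 < e := lt_min hd' (half_pos hd)
    have hsub1 : ball W e ⊆ ball W d' := ball_subset_ball (min_le_left _ _)
    have hsub2 : ball W e ⊆ ball Z d := by
      apply ball_subset_ball'
      rw [dist_eq_norm]
      have : e ≤ d / 2 := min_le_right _ _
      linarith
    have huq := UNIQ n c (m j) (ball W e) (fun w => σ j * w) g (G j) W hn isOpen_ball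
      (convex_ball _ _).isPreconnected (mem_ball_self he0) (fun w hw => hfree w (hsub2 hw))
      (hg1.mono hsub2) (hj.diff.mono hsub1) (fun w hw => hg3 w (hsub2 hw))
      (fun w hw => hj.eq w (hsub1 hw)) hg2
    have hder : deriv g W = deriv (G j) W := by
      apply Filter.EventuallyEq.deriv_eq
      filter_upwards [isOpen_ball.mem_nhds (mem_ball_self he0)] with w hw
      exact huq w hw
    have hsb : SB n c x (σ j) (m j) W (d / 2) M g := by
      have hsub3 : ball W (d / 2) ⊆ ball Z d := by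
        apply ball_subset_ball'
        rw [dist_eq_norm]
        linarith
      refine ⟨hg1.mono hsub3, fun w hw => hg3 w (hsub3 hw), ?_⟩
      rw [hg2, hder]
      exact hj.cone
    have h4 := hsb.move K hs (half_pos hd) hM (W := Z) (by rw [norm_sub_rev]; linarith)
    refine ⟨g, h4.mono (le_of_eq (by ring)) ?_, hg2⟩
    gcongr
    linarith
  obtain ⟨G', hG'⟩ := key.choice
  exact ⟨G', hG'.mono fun j hj => hj.1, hG'.mono fun j hj => hj.2⟩

theorem t_TRK : S_TRK := by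
  intro n c x r ν A U σ C R m i hh hR hconn hbr Z0 d0 M0 G0 hZ0R hZ0 hd0 hM0 h0 hf0
  obtain ⟨C0, c0, K⟩ := exists_KC
  have hC0 := K.one_le
  have hn := C.h.hn
  set Om : Set ℂ := ball (0 : ℂ) R \ Lim U σ (PC n c) with hOm
  set S : Set ℂ := {Z | Z ∈ ball (0 : ℂ) R ∧ ∃ (d M : ℝ) (G : ℕ → ℂ → ℂ), 0 < d ∧ 0 ≤ M ∧
    GS n c x U σ Z d M m G ∧
      ∀ᶠ j in (U : Filter ℕ), orb n c (G j Z) (m j - i j) = hh j (σ j * Z)} with hS
  have hSo : IsOpen S := by
    rw [Metric.isOpen_iff]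
    rintro Z ⟨hZR, d, M, G, hd, hM, hG, hf⟩
    rw [mem_ball, dist_zero_right] at hZR
    refine ⟨min (d / 4) (R - ‖Z‖), lt_min (by positivity) (by linarith), ?_⟩
    intro W hW
    rw [mem_ball, dist_eq_norm, lt_min_iff] at hW
    have hWR : ‖W‖ < R := by
      have : ‖W‖ ≤ ‖W - Z‖ + ‖Z‖ := by
        have := norm_add_le (W - Z) Z
        rwa [sub_add_cancel] at this
      linarith [hW.2]
    refine ⟨by rw [mem_ball, dist_zero_right]; exact hWR, 3 * d / 4, C0 ^ 2 * (M + d), G,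
      by positivity, by positivity, hG.move K C hd hM hW.1.le, ?_⟩
    filter_upwards [hG, hf, hbr] with j h1 h2 h3
    have he0 : 0 < min d (R - ‖Z‖) := lt_min hd (by linarith)
    refine fac hn (C.pos j) h1 h3.2 h3.1.le (e := min d (R - ‖Z‖)) (min_le_left _ _)
      (by linarith [min_le_right d (R - ‖Z‖)]) (mem_ball_self he0) h2 W ?_
    rw [mem_ball, dist_eq_norm, lt_min_iff]
    exact ⟨by linarith [hW.1], hW.2⟩
  have hTo : IsOpen (Om \ S) := by
    rw [Metric.isOpen_iff]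
    rintro Z ⟨⟨hZR, hZ⟩, hZS⟩
    obtain ⟨d, hd, hF⟩ := not_mem_Lim.mp hZ
    have hZR' := hZR
    rw [mem_ball, dist_zero_right] at hZR
    refine ⟨min (d / 8) (R - ‖Z‖), lt_min (by positivity) (by linarith), ?_⟩
    intro W hW
    rw [mem_ball, dist_eq_norm, lt_min_iff] at hW
    have hWR : ‖W‖ < R := by
      have : ‖W‖ ≤ ‖W - Z‖ + ‖Z‖ := by
        have := norm_add_le (W - Z) Z
        rwa [sub_add_cancel] at this
      linarith [hW.2]
    refine ⟨⟨by rw [mem_ball, dist_zero_right]; exact hWR,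
      not_mem_Lim.mpr ⟨d / 2, half_pos hd, hF.mono C.pos (by linarith [hW.1])⟩⟩, ?_⟩
    rintro ⟨-, d', M, G, hd', hM, hG, hf⟩
    apply hZS
    obtain ⟨G', hG', hGW⟩ := back' K Pool.Agent.J4H73.AS.t_LIFT Pool.Agent.J4H73.AS.t_UNIQ C hG hd
      hd' hM hF hW.1.le
    refine ⟨hZR', 3 * d / 8, C0 ^ 2 * (M + d), G', by positivity, by positivity, hG', ?_⟩
    filter_upwards [hG', hGW, hf, hbr] with j h1 h2 h3 h4
    have he0 : 0 < min (3 * d / 8) (R - ‖Z‖) := lt_min (by positivity) (by linarith)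
    refine fac hn (C.pos j) h1 h4.2 h4.1.le (e := min (3 * d / 8) (R - ‖Z‖)) (min_le_left _ _)
      (by linarith [min_le_right (3 * d / 8) (R - ‖Z‖)]) (W0 := W) ?_ ?_ Z (mem_ball_self he0)
    · rw [mem_ball, dist_eq_norm, lt_min_iff]
      exact ⟨by linarith [hW.1], hW.2⟩
    · rw [h2]
      exact h3
  intro Z hZR hZ
  by_contra hcon
  have h1 : (Om ∩ (S ∩ (Om \ S))).Nonempty := by
    apply hconn S (Om \ S) hSo hTo
    · intro W hW
      by_cases hWS : W ∈ S
      · exact Or.inl hWS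
      · exact Or.inr ⟨hW, hWS⟩
    · exact ⟨Z0, ⟨hZ0R, hZ0⟩, hZ0R, d0, M0, G0, hd0, hM0, h0, hf0⟩
    · exact ⟨Z, ⟨hZR, hZ⟩, ⟨hZR, hZ⟩, fun h => hcon h.2⟩
  obtain ⟨W, -, hW1, -, hW2⟩ := h1
  exact hW2 hW1

end Pool.Agent.J4H71.AS
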